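import Mathlib

set_option autoImplicit false

open Set

namespace Pool.Agent.Results.MP_f51a11_co.DowlingNotExtremal

/-- `M` is representable over `F`: some family of column vectors over `F` has, on the ground set,
exactly the independent sets of `M` as its linearly independent subfamilies. -/
def Representable (F : Type) [CommRing F] {α : Type} (M : Matroid α) : Prop :=
  ∃ (k : ℕ) (v : α → Fin k → F), ∀ I ⊆ M.E, (M.Indep I ↔ LinearIndepOn F v I)

/-- `M` is simple: no loops (case `e = f`) and no parallel pairs. -/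
def Simple {α : Type} (M : Matroid α) : Prop :=
  ∀ e ∈ M.E, ∀ f ∈ M.E, M.Indep {e, f}

/-- `M` is a finite simple rank-`n` matroid representable over both `GF(p)` and `GF(q)`. -/
def InClass (p q n : ℕ) {α : Type} (M : Matroid α) : Prop :=
  M.E.Finite ∧ Simple M ∧ M.eRank = n ∧ Representable (ZMod p) M ∧ Representable (ZMod q) M

/-- The size function: the largest number of points of such a matroid. -/
noncomputable def h (p q n : ℕ) : ℕ :=
  sSup {m : ℕ | ∃ (α : Type) (M : Matroid α), InClass p q n M ∧ M.E.ncard = m}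

/-- The vectors `e_i` and `e_i - ω e_j` (`i < j`, `ω ^ g = 1`) of `GF(p)^n`; for `g ∣ p - 1` they
represent the Dowling matroid `Q_n(C_g)`. -/
def dowlingPoints (p g n : ℕ) : Set (Fin n → ZMod p) :=
  {x | (∃ i, x = Pi.single i 1) ∨
    ∃ (i j : Fin n) (ω : ZMod p), i < j ∧ ω ^ g = 1 ∧ x = Pi.single i 1 - Pi.single j ω}

/-- `M` is isomorphic to the vector matroid of `dowlingPoints p g n`. -/
def IsoDowling (p g n : ℕ) {α : Type} (M : Matroid α) : Prop :=
  ∃ v : α → Fin n → ZMod p, BijOn v M.E (dowlingPoints p g n) ∧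
    ∀ I ⊆ M.E, (M.Indep I ↔ LinearIndepOn (ZMod p) v I)

/-! ### The vector matroid of a finite family -/

lemma finrank_span_image {F V α : Type} [Field F] [AddCommGroup V] [Module F V] {v : α → V}
    {I : Set α} (hI : I.Finite) (hv : LinearIndepOn F v I) :
    Module.finrank F (Submodule.span F (v '' I)) = I.ncard := by
  classical
  have : Fintype I := hI.fintype
  have := finrank_span_eq_card (R := F) hv.linearIndependent
  rw [show (Set.range fun x : I => v x) = v '' I from by
    ext y; simp] at this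
  rw [this, ← Nat.card_coe_set_eq, Nat.card_eq_fintype_card]

noncomputable def vecMatroid (F : Type) {V α : Type} [Field F] [AddCommGroup V] [Module F V]
    (v : α → V) (E : Set α) (hE : E.Finite) : Matroid α :=
  (IndepMatroid.ofFinite hE (fun I => I ⊆ E ∧ LinearIndepOn F v I)
    ⟨empty_subset _, linearIndepOn_empty F v⟩
    (fun _ _ hJ hIJ => ⟨hIJ.trans hJ.1, hJ.2.mono hIJ⟩)
    (by
      intro I J hI hJ hlt
      by_contra hcon
      push Not at hcon
      have hsub : Submodule.span F (v '' J) ≤ Submodule.span F (v '' I) := by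
        rw [Submodule.span_le]
        rintro _ ⟨e, he, rfl⟩
        by_cases heI : e ∈ I
        · exact Submodule.subset_span ⟨e, heI, rfl⟩
        · by_contra hn
          exact hcon e he heI (insert_subset (hJ.1 he) hI.1) (hI.2.insert hn)
      have hIf := hE.subset hI.1
      have hJf := hE.subset hJ.1
      have : Module.Finite F (Submodule.span F (v '' I)) :=
        Module.Finite.span_of_finite F (hIf.image v)
      have := Submodule.finrank_mono hsub
      rw [finrank_span_image hIf hI.2, finrank_span_image hJf hJ.2] at this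
      omega)
    (fun _ hI => hI.1)).matroid

lemma vecMatroid_E (F : Type) {V α : Type} [Field F] [AddCommGroup V] [Module F V]
    (v : α → V) (E : Set α) (hE : E.Finite) : (vecMatroid F v E hE).E = E := rfl

lemma vecMatroid_indep (F : Type) {V α : Type} [Field F] [AddCommGroup V] [Module F V]
    (v : α → V) (E : Set α) (hE : E.Finite) (I : Set α) :
    (vecMatroid F v E hE).Indep I ↔ I ⊆ E ∧ LinearIndepOn F v I := by
  simp [vecMatroid]

/-! ### The size function is attained -/

lemma ncard_le_of_inClass {p q n : ℕ} (hp : p.Prime) {α : Type} {M : Matroid α}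
    (hM : InClass p q n M) : M.E.ncard ≤ p ^ n := by
  have := Fact.mk hp
  obtain ⟨hfin, hs, hr, ⟨k, v, hv⟩, -⟩ := hM
  obtain ⟨B, hB⟩ := M.exists_isBase
  have hBE := hB.subset_ground
  have hBf := hfin.subset hBE
  have hBi : LinearIndepOn (ZMod p) v B := (hv B hBE).1 hB.indep
  have hBc : B.ncard = n := by
    have := hB.encard_eq_eRank
    rw [hr, ← hBf.cast_ncard_eq] at this
    exact_mod_cast this
  have hinj : InjOn v M.E := by
    intro e he f hf hef
    have h1 : LinearIndepOn (ZMod p) v {e, f} :=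
      (hv _ (insert_subset he (singleton_subset_iff.2 hf))).1 (hs e he f hf)
    exact h1.injOn (by simp) (by simp) hef
  have hsub : v '' M.E ⊆ (Submodule.span (ZMod p) (v '' B) : Set _) := by
    rintro _ ⟨e, he, rfl⟩
    by_cases heB : e ∈ B
    · exact Submodule.subset_span ⟨e, heB, rfl⟩
    · by_contra hn
      have h1 : M.Indep (insert e B) := (hv _ (insert_subset he hBE)).2 (hBi.insert hn)
      exact (hB.insert_dep ⟨he, heB⟩).not_indep h1
  have h1 : M.E.ncard = (v '' M.E).ncard := (hinj.ncard_image).symm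
  have h2 : (v '' M.E).ncard ≤
      (Submodule.span (ZMod p) (v '' B) : Set (Fin k → ZMod p)).ncard :=
    ncard_le_ncard hsub (toFinite _)
  have h3 : (Submodule.span (ZMod p) (v '' B) : Set (Fin k → ZMod p)).ncard = p ^ n := by
    rw [← Nat.card_coe_set_eq]
    have := Module.natCard_eq_pow_finrank (K := ZMod p) (V := Submodule.span (ZMod p) (v '' B))
    rw [finrank_span_image hBf hBi, hBc, Nat.card_zmod] at this
    exact this
  omega

/-! ### The integer vectors -/

/-- pairing of an integer vector with a vector over `F` -/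
def ev {F : Type} [Field F] {n : ℕ} (x : Fin n → F) (s : Fin n → ℤ) : F :=
  ∑ i, (s i : F) * x i

def red (F : Type) [Field F] {n : ℕ} (s : Fin n → ℤ) : Fin n → F := fun i => (s i : F)

lemma ev_single {F : Type} [Field F] {n : ℕ} (x : Fin n → F) (i : Fin n) (c : ℤ) :
    ev x (Pi.single i c) = c * x i := by
  unfold ev
  rw [Finset.sum_eq_single i]
  · simp
  · intro b _ hb; simp [Pi.single_eq_of_ne hb]
  · simp

lemma ev_sub {F : Type} [Field F] {n : ℕ} (x : Fin n → F) (s t : Fin n → ℤ) :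
    ev x (s - t) = ev x s - ev x t := by
  unfold ev
  rw [← Finset.sum_sub_distrib]
  refine Finset.sum_congr rfl fun i _ => ?_
  simp [sub_mul]

lemma notMem_span_iff {F : Type} [Field F] {n : ℕ} (S : Set (Fin n → ℤ)) (u : Fin n → ℤ) :
    red F u ∉ Submodule.span F (red F '' S) ↔
      ∃ x : Fin n → F, (∀ s ∈ S, ev x s = 0) ∧ ev x u ≠ 0 := by
  constructor
  · intro hu
    obtain ⟨φ, hφ, hφ'⟩ := Submodule.exists_dual_map_eq_bot_of_notMem hu inferInstance
    have key : ∀ s : Fin n → ℤ, ev (fun i => φ (Pi.single i 1)) s = φ (red F s) := by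
      intro s
      have : red F s = ∑ i, (s i : F) • (Pi.single i 1 : Fin n → F) := by
        ext j
        simp [red, Finset.sum_apply, Pi.single_apply]
      rw [this, map_sum]
      simp [ev]
    refine ⟨fun i => φ (Pi.single i 1), fun s hs => ?_, by rwa [key]⟩
    rw [key]
    have : φ (red F s) ∈ (Submodule.span F (red F '' S)).map φ :=
      Submodule.mem_map_of_mem (Submodule.subset_span ⟨s, hs, rfl⟩)
    rw [hφ'] at this
    simpa using this
  · rintro ⟨x, hx, hu⟩ hmem
    apply hu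
    let ψ : (Fin n → F) →ₗ[F] F :=
      { toFun := fun w => ∑ i, w i * x i
        map_add' := fun a b => by simp [add_mul, Finset.sum_add_distrib]
        map_smul' := fun c a => by simp [Finset.mul_sum, mul_assoc] }
    have hle : Submodule.span F (red F '' S) ≤ LinearMap.ker ψ := by
      rw [Submodule.span_le]
      rintro _ ⟨s, hs, rfl⟩
      exact hx s hs
    exact hle hmem

/-- The vectors `e_i`, `e_i ∓ e_j` and the extra vector `e_a - 2 e_b`. -/
def U {n : ℕ} (a b : Fin n) : Set (Fin n → ℤ) :=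
  {x | (∃ i, x = Pi.single i 1) ∨
    (∃ (i j : Fin n) (ω : ℤ), i < j ∧ (ω = 1 ∨ ω = -1) ∧ x = Pi.single i 1 - Pi.single j ω) ∨
    x = Pi.single a 1 - Pi.single b 2}

/-- The finite transfer property between two fields. -/
def Transfer (F F' : Type) [Field F] [Field F'] : Prop :=
  (∀ c s t : F, s ≠ t → ∃ f : F → F', (∀ z, f (-z) = - f z) ∧ f 0 = 0 ∧
    f (2 * c) = 2 * f c ∧ f s ≠ f t) ∧
  (∀ s t : F, s ≠ 2 * t → ∃ f : F → F', (∀ z, f (-z) = - f z) ∧ f 0 = 0 ∧ f s ≠ 2 * f t)

lemma transfer_ev {F F' : Type} [Field F] [Field F'] {n : ℕ} {a b : Fin n} (x : Fin n → F)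
    (f : F → F') (hodd : ∀ z, f (-z) = - f z) (h0 : f 0 = 0)
    (h2 : x a = 2 * x b → f (x a) = 2 * f (x b)) {s : Fin n → ℤ} (hs : s ∈ U a b)
    (hx : ev x s = 0) : ev (fun i => f (x i)) s = 0 := by
  rcases hs with ⟨i, rfl⟩ | ⟨i, j, ω, -, hω, rfl⟩ | rfl
  · rw [ev_single] at hx ⊢
    simp only [Int.cast_one, one_mul] at hx ⊢
    rw [hx, h0]
  · rw [ev_sub, ev_single, ev_single] at hx ⊢
    rcases hω with rfl | rfl
    · simp only [Int.cast_one, one_mul, sub_eq_zero] at hx ⊢
      rw [hx]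
    · simp only [Int.cast_one, one_mul, Int.cast_neg, neg_mul, sub_eq_zero] at hx ⊢
      rw [hx, hodd]
  · rw [ev_sub, ev_single, ev_single] at hx ⊢
    simp only [Int.cast_one, one_mul, sub_eq_zero, Int.cast_ofNat] at hx ⊢
    exact h2 hx

lemma transfer_notMem {F F' : Type} [Field F] [Field F'] (hT : Transfer F F') {n : ℕ}
    {a b : Fin n} {S : Set (Fin n → ℤ)} (hS : S ⊆ U a b) {u : Fin n → ℤ} (hu : u ∈ U a b)
    (h : red F u ∉ Submodule.span F (red F '' S)) :
    red F' u ∉ Submodule.span F' (red F' '' S) := by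
  rw [notMem_span_iff] at h ⊢
  obtain ⟨x, hx, hxu⟩ := h
  have main : ∃ f : F → F', (∀ z, f (-z) = - f z) ∧ f 0 = 0 ∧
      (x a = 2 * x b → f (x a) = 2 * f (x b)) ∧ ev (fun i => f (x i)) u ≠ 0 := by
    rcases hu with ⟨i, rfl⟩ | ⟨i, j, ω, -, hω, rfl⟩ | rfl
    · rw [ev_single] at hxu
      simp only [Int.cast_one, one_mul] at hxu
      obtain ⟨f, h1, h2, h3, h4⟩ := hT.1 (x b) (x i) 0 hxu
      refine ⟨f, h1, h2, fun h => by rw [h, h3], ?_⟩
      rw [ev_single]
      simpa [h2] using h4
    · rw [ev_sub, ev_single, ev_single] at hxu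
      rcases hω with rfl | rfl
      · simp only [Int.cast_one, one_mul, ne_eq, sub_eq_zero] at hxu
        obtain ⟨f, h1, h2, h3, h4⟩ := hT.1 (x b) (x i) (x j) hxu
        refine ⟨f, h1, h2, fun h => by rw [h, h3], ?_⟩
        rw [ev_sub, ev_single, ev_single]
        simpa [sub_eq_zero] using h4
      · simp only [Int.cast_one, one_mul, Int.cast_neg, neg_mul, ne_eq, sub_eq_zero] at hxu
        obtain ⟨f, h1, h2, h3, h4⟩ := hT.1 (x b) (x i) (- x j) hxu
        refine ⟨f, h1, h2, fun h => by rw [h, h3], ?_⟩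
        rw [ev_sub, ev_single, ev_single]
        rw [h1] at h4
        simp only [Int.cast_one, one_mul, Int.cast_neg, neg_mul, ne_eq, sub_eq_zero]
        exact h4
    · rw [ev_sub, ev_single, ev_single] at hxu
      simp only [Int.cast_one, one_mul, ne_eq, sub_eq_zero, Int.cast_ofNat] at hxu
      obtain ⟨f, h1, h2, h4⟩ := hT.2 (x a) (x b) hxu
      refine ⟨f, h1, h2, fun h => absurd h hxu, ?_⟩
      rw [ev_sub, ev_single, ev_single]
      simpa [sub_eq_zero] using h4
  obtain ⟨f, h1, h2, h3, h4⟩ := main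
  exact ⟨fun i => f (x i), fun s hs => transfer_ev x f h1 h2 h3 (hS hs) (hx s hs), h4⟩

lemma transfer_indep {F F' : Type} [Field F] [Field F'] (hT : Transfer F F') {n : ℕ}
    {a b : Fin n} {S : Set (Fin n → ℤ)} (hS : S ⊆ U a b)
    (h : LinearIndepOn F (red F) S) : LinearIndepOn F' (red F') S := by
  rw [linearIndepOn_iff_notMem_span] at h ⊢
  intro u hu
  exact transfer_notMem hT (sdiff_subset.trans hS) (hS hu) (h u hu)

instance : Fact (Nat.Prime 5) := ⟨by norm_num⟩
instance : Fact (Nat.Prime 7) := ⟨by norm_num⟩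

def odd57 (c d : ZMod 7) (z : ZMod 5) : ZMod 7 :=
  if z = 1 then c else if z = 2 then d else if z = 3 then -d else if z = 4 then -c else 0

def odd75 (c d e : ZMod 5) (z : ZMod 7) : ZMod 5 :=
  if z = 1 then c else if z = 2 then d else if z = 3 then e else if z = 4 then -e
  else if z = 5 then -d else if z = 6 then -c else 0

lemma transfer57 : Transfer (ZMod 5) (ZMod 7) := by
  have hodd : ∀ c d z, odd57 c d (-z) = - odd57 c d z := by decide +kernel
  have h0 : ∀ c d, odd57 c d 0 = 0 := by decide +kernel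
  have h1 : ∀ c s t : ZMod 5, s ≠ t → ∃ u v, odd57 u v (2 * c) = 2 * odd57 u v c ∧
      odd57 u v s ≠ odd57 u v t := by decide +kernel
  have h2 : ∀ s t : ZMod 5, s ≠ 2 * t → ∃ u v, odd57 u v s ≠ 2 * odd57 u v t := by
    decide +kernel
  refine ⟨fun c s t hst => ?_, fun s t hst => ?_⟩
  · obtain ⟨u, v, h, h'⟩ := h1 c s t hst
    exact ⟨odd57 u v, hodd u v, h0 u v, h, h'⟩
  · obtain ⟨u, v, h⟩ := h2 s t hst
    exact ⟨odd57 u v, hodd u v, h0 u v, h⟩

lemma transfer75 : Transfer (ZMod 7) (ZMod 5) := by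
  have hodd : ∀ c d e z, odd75 c d e (-z) = - odd75 c d e z := by decide +kernel
  have h0 : ∀ c d e, odd75 c d e 0 = 0 := by decide +kernel
  have h1 : ∀ c s t : ZMod 7, s ≠ t → ∃ u v w, odd75 u v w (2 * c) = 2 * odd75 u v w c ∧
      odd75 u v w s ≠ odd75 u v w t := by decide +kernel
  have h2 : ∀ s t : ZMod 7, s ≠ 2 * t → ∃ u v w, odd75 u v w s ≠ 2 * odd75 u v w t := by
    decide +kernel
  refine ⟨fun c s t hst => ?_, fun s t hst => ?_⟩
  · obtain ⟨u, v, w, h, h'⟩ := h1 c s t hst
    exact ⟨odd75 u v w, hodd u v w, h0 u v w, h, h'⟩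
  · obtain ⟨u, v, w, h⟩ := h2 s t hst
    exact ⟨odd75 u v w, hodd u v w, h0 u v w, h⟩

/-- entries of the vectors of `U` -/
lemma U_form {n : ℕ} {a b : Fin n} (hab : a < b) {u : Fin n → ℤ} (hu : u ∈ U a b) :
    (∃ i, u i = 1 ∧ ∀ k, k < i → u k = 0) ∧ ∀ k, -2 ≤ u k ∧ u k ≤ 2 := by
  have aux : ∀ (i j : Fin n) (ω : ℤ), i < j → -2 ≤ ω → ω ≤ 2 →
      (∃ i', (Pi.single i 1 - Pi.single j ω : Fin n → ℤ) i' = 1 ∧ ∀ k, k < i' →
        (Pi.single i 1 - Pi.single j ω : Fin n → ℤ) k = 0) ∧
      ∀ k, -2 ≤ (Pi.single i 1 - Pi.single j ω : Fin n → ℤ) k ∧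
        (Pi.single i 1 - Pi.single j ω : Fin n → ℤ) k ≤ 2 := by
    intro i j ω hij h1 h2
    refine ⟨⟨i, by simp [Pi.single_eq_of_ne hij.ne], fun k hk => ?_⟩, fun k => ?_⟩
    · simp [Pi.single_eq_of_ne hk.ne, Pi.single_eq_of_ne (hk.trans hij).ne]
    · simp only [Pi.sub_apply, Pi.single_apply]
      split_ifs with h3 h4
      · exact absurd (h3.symm.trans h4) hij.ne
      all_goals omega
  rcases hu with ⟨i, rfl⟩ | ⟨i, j, ω, hij, hω, rfl⟩ | rfl
  · refine ⟨⟨i, by simp, fun k hk => by simp [Pi.single_eq_of_ne hk.ne]⟩, fun k => ?_⟩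
    simp only [Pi.single_apply]
    split_ifs <;> omega
  · exact aux i j ω hij (by omega) (by omega)
  · exact aux a b 2 hab (by omega) (by omega)

lemma red5_injOn {n : ℕ} {a b : Fin n} (hab : a < b) : InjOn (red (ZMod 5)) (U a b) := by
  intro u hu w hw huw
  ext k
  have h1 := (U_form hab hu).2 k
  have h2 := (U_form hab hw).2 k
  have h3 : ((u k : ℤ) : ZMod 5) = ((w k : ℤ) : ZMod 5) := congrFun huw k
  rw [ZMod.intCast_eq_intCast_iff_dvd_sub] at h3
  push_cast at h3
  omega

lemma U_finite {n : ℕ} {a b : Fin n} (hab : a < b) : (U a b).Finite :=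
  Finite.of_injOn (mapsTo_univ _ _) (red5_injOn hab) finite_univ

lemma U_pair_indep {n : ℕ} {a b : Fin n} (hab : a < b) {u w : Fin n → ℤ} (hu : u ∈ U a b)
    (hw : w ∈ U a b) : LinearIndepOn (ZMod 5) (red (ZMod 5)) {u, w} := by
  obtain ⟨⟨i, hi, hi'⟩, -⟩ := U_form hab hu
  obtain ⟨⟨j, hj, hj'⟩, -⟩ := U_form hab hw
  have hw0 : red (ZMod 5) w ≠ 0 := by
    intro h
    have := congrFun h j
    simp [red, hj] at this
  by_cases huw : u = w
  · subst huw
    rw [pair_eq_singleton]
    exact LinearIndepOn.singleton hw0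
  refine (LinearIndepOn.singleton hw0).insert ?_
  rw [image_singleton, Submodule.mem_span_singleton]
  rintro ⟨c, hc⟩
  apply huw
  apply red5_injOn hab hu hw
  have hci := congrFun hc i
  have hcj := congrFun hc j
  simp only [red, Pi.smul_apply, smul_eq_mul] at hci hcj
  rcases lt_trichotomy i j with h | h | h
  · rw [hj' i h, hi] at hci
    simp at hci
  · subst h
    rw [hi, hj] at hci
    simp only [Int.cast_one, mul_one] at hci
    rw [← hc, hci, one_smul]
  · rw [hi' j h, hj] at hcj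
    simp only [Int.cast_one, mul_one, Int.cast_zero] at hcj
    rw [hcj] at hci
    simp [hi] at hci

lemma red_single (F : Type) [Field F] {n : ℕ} (i : Fin n) (c : ℤ) :
    red F (Pi.single i c) = Pi.single i (c : F) := by
  ext k
  simp only [red, Pi.single_apply]
  split_ifs <;> simp

lemma red_sub (F : Type) [Field F] {n : ℕ} (s t : Fin n → ℤ) :
    red F (s - t) = red F s - red F t := by
  ext k; simp [red]

noncomputable def M0 {n : ℕ} {a b : Fin n} (hab : a < b) : Matroid (Fin n → ℤ) :=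
  vecMatroid (ZMod 5) (red (ZMod 5)) (U a b) (U_finite hab)

lemma M0_inClass {n : ℕ} {a b : Fin n} (hab : a < b) : InClass 5 7 n (M0 hab) := by
  refine ⟨U_finite hab, ?_, ?_, ⟨n, red (ZMod 5), ?_⟩, ⟨n, red (ZMod 7), ?_⟩⟩
  · intro e he f hf
    rw [M0, vecMatroid_indep]
    exact ⟨insert_subset he (singleton_subset_iff.2 hf), U_pair_indep hab he hf⟩
  · apply le_antisymm
    · obtain ⟨B, hB⟩ := (M0 hab).exists_isBase
      rw [← hB.encard_eq_eRank]
      have h1 := hB.indep
      rw [M0, vecMatroid_indep] at h1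
      have := h1.2.encard_le_toENat_rank
      simpa using this
    · have hinj : Function.Injective (fun i : Fin n => (Pi.single i 1 : Fin n → ℤ)) := by
        intro i j hij
        by_contra hne
        have := congrFun hij i
        simp [Pi.single_eq_of_ne hne] at this
      have h1 : (M0 hab).Indep (range fun i : Fin n => (Pi.single i 1 : Fin n → ℤ)) := by
        rw [M0, vecMatroid_indep]
        refine ⟨by rintro _ ⟨i, rfl⟩; exact Or.inl ⟨i, rfl⟩, ?_⟩
        rw [linearIndepOn_range_iff hinj]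
        have := (Pi.basisFun (ZMod 5) (Fin n)).linearIndependent
        have heq : (red (ZMod 5) ∘ fun i : Fin n => (Pi.single i 1 : Fin n → ℤ)) =
            ⇑(Pi.basisFun (ZMod 5) (Fin n)) := by
          ext i k
          simp [red_single]
        rw [heq]
        exact this
      have h2 := hinj.encard_range.trans h1.encard_le_eRank
      simpa using h2
  · intro I hI
    rw [M0, vecMatroid_indep]
    exact ⟨fun h => h.2, fun h => ⟨hI, h⟩⟩
  · intro I hI
    rw [M0, vecMatroid_indep]
    exact ⟨fun h => transfer_indep transfer57 hI h.2,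
      fun h => ⟨hI, transfer_indep transfer75 hI h⟩⟩

lemma dowling_lt {n : ℕ} {a b : Fin n} (hab : a < b) :
    (dowlingPoints 5 2 n).ncard < (U a b).ncard := by
  rw [← (red5_injOn hab).ncard_image]
  refine ncard_lt_ncard ⟨?_, ?_⟩ (toFinite _)
  · rintro x (⟨i, rfl⟩ | ⟨i, j, ω, hij, hω, rfl⟩)
    · exact ⟨Pi.single i 1, Or.inl ⟨i, rfl⟩, by simp [red_single]⟩
    · have : ∀ ω : ZMod 5, ω ^ 2 = 1 → ω = 1 ∨ ω = -1 := by decide
      rcases this ω hω with rfl | rfl
      · exact ⟨_, Or.inr (Or.inl ⟨i, j, 1, hij, Or.inl rfl, rfl⟩), by simp [red_sub, red_single]⟩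
      · exact ⟨_, Or.inr (Or.inl ⟨i, j, -1, hij, Or.inr rfl, rfl⟩), by
          rw [red_sub, red_single, red_single]; simp⟩
  · intro hsub
    have hmem := hsub ⟨_, Or.inr (Or.inr rfl), rfl⟩
    have hb : red (ZMod 5) (Pi.single a 1 - Pi.single b 2 : Fin n → ℤ) b = -2 := by
      simp [red, Pi.single_eq_of_ne hab.ne']
    rcases hmem with ⟨i, hi⟩ | ⟨i, j, ω, hij, hω, hi⟩
    · rw [hi, Pi.single_apply] at hb
      split_ifs at hb <;> revert hb <;> decide
    · rw [hi] at hb
      simp only [Pi.sub_apply, Pi.single_apply] at hb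
      split_ifs at hb with h1 h2
      · exact absurd (h1.symm.trans h2) hij.ne
      · revert hb; decide
      · clear hi; revert hb hω; revert ω; decide
      · revert hb; decide

/-- Q2 is false: it fails for `p = 5`, `q = 7`. -/
theorem result :
    ¬ (∀ p q : ℕ, p.Prime → q.Prime → p ≠ q → ∃ N : ℕ, ∀ n : ℕ, N ≤ n →
        ∀ (α : Type) (M : Matroid α), InClass p q n M → M.E.ncard = h p q n →
          IsoDowling p (Nat.gcd (p - 1) (q - 1)) n M) := by
  intro H
  obtain ⟨N, hN⟩ := H 5 7 (by norm_num) (by norm_num) (by norm_num)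
  have hab : (⟨0, by omega⟩ : Fin (N + 2)) < ⟨1, by omega⟩ := by simp
  set T := {m : ℕ | ∃ (α : Type) (M : Matroid α), InClass 5 7 (N + 2) M ∧ M.E.ncard = m}
    with hT
  have hbdd : BddAbove T := by
    refine ⟨5 ^ (N + 2), ?_⟩
    rintro _ ⟨α, M, hM, rfl⟩
    exact ncard_le_of_inClass (by norm_num) hM
  have hmem : (M0 hab).E.ncard ∈ T := ⟨_, M0 hab, M0_inClass hab, rfl⟩
  obtain ⟨α, M, hM, hc⟩ := Nat.sSup_mem ⟨_, hmem⟩ hbdd
  obtain ⟨v, hv, -⟩ := hN (N + 2) (by omega) α M hM hc
  have h1 := hv.ncard_eq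
  have h2 := le_csSup hbdd hmem
  have h3 := dowling_lt hab
  have h4 : Nat.gcd (5 - 1) (7 - 1) = 2 := by norm_num
  rw [h4] at h1
  have h5 : (M0 hab).E = U ⟨0, by omega⟩ ⟨1, by omega⟩ := rfl
  rw [h5] at h2
  omega

end Pool.Agent.Results.MP_f51a11_co.DowlingNotExtremal
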