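import Pool.Agent.Lib.MP_f51a11_co.Qp.Main

/-! Simple matroids representable over `GF(p)` and over a field of another characteristic have
at most `p ^ O(log p) * C(n, 2) + n` points, in every rank `n`. -/

namespace Pool.Agent.Results.MP_f51a11_co.QuasiPoly

open Pool.Agent.Lib.MP_f51a11_co.Qp

/-- `M` is representable over `F`: some family of column vectors over `F` has, on the ground set,
exactly the independent sets of `M` as its linearly independent subfamilies. -/
def Representable (F : Type) [CommRing F] {α : Type} (M : Matroid α) : Prop :=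
  ∃ (k : ℕ) (v : α → Fin k → F), ∀ I ⊆ M.E, (M.Indep I ↔ LinearIndepOn F v I)

/-- `M` is simple: no loops (case `e = f`) and no parallel pairs. -/
def Simple {α : Type} (M : Matroid α) : Prop :=
  ∀ e ∈ M.E, ∀ f ∈ M.E, M.Indep {e, f}

theorem result (p n : ℕ) (hp : p.Prime) (K : Type) [Field K] (hK : (p : K) ≠ 0) {α : Type}
    (M : Matroid α) (hfin : M.E.Finite) (hs : Simple M) (hr : M.eRank = n)
    (h1 : Representable (ZMod p) M) (h2 : Representable K M) :
    M.E.ncard ≤ p * (5 * p ^ 4) ^ (2 * Nat.log 2 p + 2) * n.choose 2 + n := by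
  classical
  have := Fact.mk hp
  obtain ⟨k, a, ha⟩ := h1
  obtain ⟨l, w, hw⟩ := h2
  have sub : ∀ I ⊆ hfin.toFinset, (I : Set α) ⊆ M.E := fun I hI => Set.Finite.subset_toFinset.1 hI
  have e1 : ∀ I ⊆ hfin.toFinset, Ind ⊥ a I ↔ M.Indep I := fun I hI => by
    rw [ha I (sub I hI), linearIndepOn_finset_iff]
    rfl
  have e2 : ∀ I ⊆ hfin.toFinset, Ind ⊥ w I ↔ M.Indep I := fun I hI => by
    rw [hw I (sub I hI), linearIndepOn_finset_iff]
    rfl
  rw [Set.ncard_eq_toFinset_card _ hfin]
  refine main hK n ⊥ ⊥ _ (fun I hI => (e1 I hI).trans (e2 I hI).symm) (fun e he f hf => ?_)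
    fun I hI h => ?_
  · rw [e1 _ (Finset.insert_subset he (Finset.singleton_subset_iff.2 hf)), Finset.coe_pair]
    exact hs e (hfin.mem_toFinset.1 he) f (hfin.mem_toFinset.1 hf)
  · have h3 := ((e1 I hI).1 h).encard_le_eRank
    rwa [hr, Set.encard_coe_eq_coe_finsetCard, Nat.cast_le] at h3

/-- The case of two prime fields. -/
theorem two_primes (p q n : ℕ) (hp : p.Prime) (hq : q.Prime) (hpq : p ≠ q) {α : Type}
    (M : Matroid α) (hfin : M.E.Finite) (hs : Simple M) (hr : M.eRank = n)
    (h1 : Representable (ZMod p) M) (h2 : Representable (ZMod q) M) :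
    M.E.ncard ≤ p * (5 * p ^ 4) ^ (2 * Nat.log 2 p + 2) * n.choose 2 + n := by
  have := Fact.mk hq
  exact result p n hp (ZMod q) (fun k => hpq ((Nat.prime_dvd_prime_iff_eq hq hp).1
    ((ZMod.natCast_eq_zero_iff p q).1 k)).symm) M hfin hs hr h1 h2

end Pool.Agent.Results.MP_f51a11_co.QuasiPoly
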